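import Pool.Agent.W601.SQ.Stm

set_option autoImplicit false
open scoped Classical Cardinal
open Filter Topology

namespace Pool.Agent.W370.SQ.CG

open Pool.Agent.W601.SQ

theorem ip_congr {ι : Type} (m : ι →₀ ℤ) (y y' : ι → ℝ) (h : ∀ i ∈ m.support, y i = y' i) :
    ip m y = ip m y' := by
  unfold ip
  apply Finsupp.sum_congr
  intro i hi
  rw [h i hi]

theorem cg : S_ALG → S_SUBS → S_BETA → S_DEN → S_CG := by
  intro hALG hSUBS hBETA hDEN θ hθ K hK
  obtain ⟨-, -, hdist, -, -, -, hmem, -, -, -, -, -, -⟩ := hALG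
  by_contra hfin
  have hinf : K.Infinite := hfin
  obtain ⟨z, hzinj, hzK⟩ : ∃ z : ℕ → ↥(GG θ), Function.Injective z ∧ ∀ n, z n ∈ K := by
    refine ⟨fun n => ((hinf.natEmbedding K n : K) : ↥(GG θ)), ?_, fun n => (hinf.natEmbedding K n).2⟩
    intro i j hij
    exact (hinf.natEmbedding K).injective (Subtype.ext hij)
  have hs : ∀ n, ∃ m, gm θ m = ((z n : ↥(GG θ)) : ℝ → Circle) := fun n => (hmem θ _).mp (z n).2
  choose s hs using hs
  have hsinj : Function.Injective s := by
    intro i j hij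
    apply hzinj
    apply Subtype.ext
    rw [← hs i, ← hs j, hij]
  obtain ⟨φ, hφ, hYY⟩ := hSUBS s hsinj
  have h2 := hθ.2.1
  have hcard : (2 : Cardinal) ^ 𝔠 ≤ #(↥(GG θ)) := by
    apply hBETA ↥(GG θ) K hK (fun j => z (φ j)) (fun j => hzK (φ j))
    intro J
    obtain ⟨Y, hY, -, hgood⟩ := hYY J
    have hne : ∀ β, ∃ y, y ∈ Y β := by
      intro β
      by_contra hcon
      push Not at hcon
      have he : Y β = ∅ := Set.eq_empty_of_forall_notMem hcon
      have h1 := hY β
      rw [he, Cardinal.mk_eq_zero] at h1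
      exact absurd (lt_of_lt_of_le Cardinal.continuum_pos h1) (lt_irrefl _)
    choose y hy using hne
    obtain ⟨β, hβ⟩ := h2 (⋃ n, ((s n).support : Set ℝ)) y
      (Set.countable_iUnion (fun n => (s n).support.countable_toSet))
    refine ⟨fun g => (g : ℝ → Circle) β, (continuous_apply β).comp continuous_subtype_val, ?_⟩
    intro j
    have e1 : ((z (φ j) : ↥(GG θ)) : ℝ → Circle) β = cx (ip (s (φ j)) y) := by
      rw [← hs (φ j)]
      unfold gm
      congr 1
      apply ip_congr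
      intro i hi
      apply hβ i
      exact Set.mem_iUnion.mpr ⟨φ j, hi⟩
    show dist (((z (φ j) : ↥(GG θ)) : ℝ → Circle) β) (cx (tg J j)) ≤ 9 / 10
    rw [e1]
    exact hdist _ _ (hgood y hy j)
  have hle : #(↥(GG θ)) ≤ 𝔠 := (hDEN θ hθ).2.2.1
  exact absurd (le_trans hcard hle) (not_le.mpr (Cardinal.cantor 𝔠))

end Pool.Agent.W370.SQ.CG
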